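import Mathlib
import Pool.Agent.H402V4.Calc

/-! The abstract shell system and the energy estimate for its tails. -/

open Set Finset

namespace Pool.Agent.H402V4

/-- `∑_{m<n} g_m a_m(t)` -/
def W (g : ℕ → ℝ) (a : ℕ → ℝ → ℝ) (n : ℕ) (t : ℝ) : ℝ := ∑ m ∈ range n, g m * a m t

theorem W_succ (g : ℕ → ℝ) (a : ℕ → ℝ → ℝ) (n : ℕ) (t : ℝ) :
    W g a (n + 1) t = W g a n t + g n * a n t := by
  simp [W, sum_range_succ]

structure Shell (g μ slo shi κh : ℕ → ℝ) (R T : ℝ) (a e σ κ : ℕ → ℝ → ℝ) : Prop where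
  T_nonneg : 0 ≤ T
  T_le : T ≤ 1
  R_ge : 1 ≤ R
  g_pos : ∀ n, 0 < g n
  μ_nonneg : ∀ n, 0 ≤ μ n
  deriv : ∀ n, ∀ t ∈ Icc 0 T, HasDerivWithinAt (a n)
    ((W g a n t - μ n) * a n t - g n * e n t + σ n t) (Icc 0 T) t
  rec_e : ∀ n, ∀ t ∈ Icc 0 T, e n t = a (n + 1) t ^ 2 + κ (n + 1) t + e (n + 1) t
  e_nonneg : ∀ n, ∀ t ∈ Icc 0 T, 0 ≤ e n t
  e_lim : ∀ ε > 0, ∃ n0, ∀ n ≥ n0, ∀ t ∈ Icc 0 T, e n t ≤ ε
  W_lim : ∀ ε > 0, ∃ n0, ∀ n ≥ n0, ∀ t ∈ Icc 0 T, e n t * |W g a (n + 1) t| ≤ ε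
  a_bdd : ∀ n, ∀ t ∈ Icc 0 T, |a n t| ≤ R
  slo_pos : ∀ n, 0 < slo n
  σ_lo : ∀ n, ∀ t ∈ Icc 0 T, slo n ≤ σ n t
  σ_hi : ∀ n, ∀ t ∈ Icc 0 T, σ n t ≤ shi n
  κ_nonneg : ∀ n, ∀ t ∈ Icc 0 T, 0 ≤ κ n t
  κ_hi : ∀ n, ∀ t ∈ Icc 0 T, κ n t ≤ κh n

/-- bound for `|W_n|` coming from `|a| ≤ R` -/
def w (g : ℕ → ℝ) (R : ℝ) (n : ℕ) : ℝ := R * ∑ m ∈ range n, g m

namespace Shell

variable {g μ slo shi κh : ℕ → ℝ} {R T : ℝ} {a e σ κ : ℕ → ℝ → ℝ}
  (S : Shell g μ slo shi κh R T a e σ κ)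

include S

theorem cont (n : ℕ) : ContinuousOn (a n) (Icc 0 T) :=
  fun t ht => (S.deriv n t ht).continuousWithinAt

theorem abs_W_le (n : ℕ) {t : ℝ} (ht : t ∈ Icc 0 T) : |W g a n t| ≤ w g R n := by
  unfold W w
  rw [mul_sum]
  refine (abs_sum_le_sum_abs _ _).trans (sum_le_sum fun m _ => ?_)
  rw [abs_mul, abs_of_pos (S.g_pos m), mul_comm]
  exact mul_le_mul_of_nonneg_right (S.a_bdd m t ht) (S.g_pos m).le

theorem w_nonneg (n : ℕ) : 0 ≤ w g R n :=
  mul_nonneg (by linarith [S.R_ge]) (sum_nonneg fun m _ => (S.g_pos m).le)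

theorem w_mono {n m : ℕ} (h : n ≤ m) : w g R n ≤ w g R m := by
  unfold w
  refine mul_le_mul_of_nonneg_left ?_ (by linarith [S.R_ge])
  exact sum_le_sum_of_subset_of_nonneg (range_mono h) (fun i _ _ => (S.g_pos i).le)

/-- the algebraic identity behind the tail energy estimate -/
theorem flux {n K : ℕ} (hK : n ≤ K) {t : ℝ} (ht : t ∈ Icc 0 T) :
    ∑ l ∈ Ico (n + 1) (K + 1), (W g a l t * a l t ^ 2 - g l * a l t * e l t)
      = W g a (n + 1) t * ∑ l ∈ Ico (n + 1) (K + 1), a l t ^ 2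
        - e K t * (W g a (K + 1) t - W g a (n + 1) t)
        - ∑ l ∈ Ico (n + 1) (K + 1), κ l t * (W g a l t - W g a (n + 1) t) := by
  induction K, hK using Nat.le_induction with
  | base => simp
  | succ K hK ih =>
    have hle : n + 1 ≤ K + 1 := by omega
    rw [sum_Ico_succ_top hle, sum_Ico_succ_top hle, sum_Ico_succ_top hle, ih,
      S.rec_e K t ht, W_succ g a (K + 1) t]
    ring

theorem tail_split {n K : ℕ} (hK : n ≤ K) {t : ℝ} (ht : t ∈ Icc 0 T) :
    e n t = ∑ l ∈ Ico (n + 1) (K + 1), a l t ^ 2 + ∑ l ∈ Ico (n + 1) (K + 1), κ l t + e K t := by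
  induction K, hK using Nat.le_induction with
  | base => simp
  | succ K hK ih =>
    have hle : n + 1 ≤ K + 1 := by omega
    rw [sum_Ico_succ_top hle, sum_Ico_succ_top hle, ih, S.rec_e K t ht]
    ring

/-- Energy estimate for the tails: if the primitives `P m` of the positive parts of the first modes
satisfy `∑_{m ≤ n} g_m P_m(τ) ≤ B` then `e_n ≤ 2 η e^{2B}` on `[0, τ]`. -/
theorem tail {P A : ℕ → ℝ → ℝ}
    (hA : ∀ n, ∀ t ∈ Icc 0 T, HasDerivWithinAt (A n) (a n t) (Icc 0 T) t)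
    (hP0 : ∀ n, P n 0 = 0)
    (hP : ∀ n, ∀ t ∈ Icc 0 T, HasDerivWithinAt (P n) (max (a n t) 0) (Icc 0 T) t)
    {n : ℕ} (h0 : ∀ l, n < l → a l 0 = 0) {η : ℝ}
    (hη : ∀ K, ∑ l ∈ Ico (n + 1) (K + 1), (2 * R * shi l + 4 * κh l * w g R l) ≤ η)
    (hη' : ∀ K, ∑ l ∈ Ico (n + 1) (K + 1), κh l ≤ η)
    {τ B : ℝ} (hτ : τ ∈ Icc 0 T) (hB : ∑ m ∈ range (n + 1), g m * P m τ ≤ B)
    {t : ℝ} (ht : t ∈ Icc 0 τ) : e n t ≤ 2 * η * Real.exp (2 * B) := by
  have hPmono : ∀ m, MonotoneOn (P m) (Icc 0 T) := fun m =>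
    mono_of_deriv (hP m) (fun t _ => le_max_right _ _)
  have hPnn : ∀ m, ∀ t ∈ Icc 0 T, 0 ≤ P m t := fun m t ht => by
    have := hPmono m (left_mem_Icc.mpr S.T_nonneg) ht ht.1
    rwa [hP0] at this
  have hB0 : 0 ≤ B := le_trans (sum_nonneg fun m _ => mul_nonneg (S.g_pos m).le (hPnn m τ hτ)) hB
  have hη0 : 0 ≤ η := by simpa using hη' n
  obtain ⟨C, hCdef⟩ : ∃ C, C = w g R (n + 1) + 1 := ⟨_, rfl⟩
  have hC0 : 0 ≤ C := by have := S.w_nonneg (n + 1); linarith
  have hsubT : Icc 0 τ ⊆ Icc 0 T := Icc_subset_Icc le_rfl hτ.2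
  have htT : t ∈ Icc 0 T := hsubT ht
  -- increments of the primitive of `2 W_{n+1}`
  have hinc : ∀ s ∈ Icc 0 τ, ∀ t ∈ Icc 0 τ, s ≤ t →
      (2 * ∑ m ∈ range (n + 1), g m * A m t) - (2 * ∑ m ∈ range (n + 1), g m * A m s) ≤ 2 * B := by
    intro s hs t ht hst
    rw [← mul_sub, ← sum_sub_distrib]
    refine mul_le_mul_of_nonneg_left (le_trans (sum_le_sum fun m _ => ?_) hB) (by norm_num)
    rw [← mul_sub]
    refine mul_le_mul_of_nonneg_left ?_ (S.g_pos m).le
    have h1 := le_of_deriv_le (hA m) (hP m) (fun t _ => le_max_left _ _) (hsubT hs) (hsubT ht) hst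
    have h2 := hPnn m s (hsubT hs)
    have h3 := hPmono m (hsubT ht) hτ ht.2
    linarith
  -- estimate for every ε
  have key : ∀ ε > 0, e n t ≤ (η + 4 * C * ε) * Real.exp (2 * B) + η + ε := by
    intro ε hε
    obtain ⟨n0, hn0⟩ := S.e_lim ε hε
    obtain ⟨n1, hn1⟩ := S.W_lim ε hε
    set K := max n (max n0 n1) with hKdef
    have hnK : n ≤ K := le_max_left _ _
    have heK : ∀ t ∈ Icc 0 T, e K t ≤ ε :=
      hn0 K ((le_max_left _ _).trans (le_max_right _ _))
    have hWK : ∀ t ∈ Icc 0 T, e K t * |W g a (K + 1) t| ≤ ε :=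
      hn1 K ((le_max_right _ _).trans (le_max_right _ _))
    have hF : ∀ t ∈ Icc 0 τ, HasDerivWithinAt (fun t => ∑ l ∈ Ico (n + 1) (K + 1), a l t ^ 2)
        (∑ l ∈ Ico (n + 1) (K + 1), (2 * a l t ^ 1 *
          ((W g a l t - μ l) * a l t - g l * e l t + σ l t))) (Icc 0 τ) t := by
      intro t ht
      refine HasDerivWithinAt.fun_sum fun l _ => ?_
      have := ((S.deriv l t (hsubT ht)).mono hsubT).fun_pow 2
      simpa using this
    have hΓ : ∀ t ∈ Icc 0 τ, HasDerivWithinAt (fun t => 2 * ∑ m ∈ range (n + 1), g m * A m t)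
        (2 * W g a (n + 1) t) (Icc 0 τ) t := by
      intro t ht
      refine HasDerivWithinAt.const_mul 2 ?_
      unfold W
      exact HasDerivWithinAt.fun_sum fun m _ => ((hA m t (hsubT ht)).mono hsubT).const_mul (g m)
    have hle : ∀ t ∈ Icc 0 τ, (∑ l ∈ Ico (n + 1) (K + 1), (2 * a l t ^ 1 *
          ((W g a l t - μ l) * a l t - g l * e l t + σ l t)))
        ≤ (2 * W g a (n + 1) t) * (∑ l ∈ Ico (n + 1) (K + 1), a l t ^ 2) + (η + 4 * C * ε) := by
      intro t ht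
      have htT := hsubT ht
      have hflux := S.flux hnK htT
      have h1 : (∑ l ∈ Ico (n + 1) (K + 1), (2 * a l t ^ 1 *
          ((W g a l t - μ l) * a l t - g l * e l t + σ l t)))
          = 2 * (∑ l ∈ Ico (n + 1) (K + 1), (W g a l t * a l t ^ 2 - g l * a l t * e l t))
            + ∑ l ∈ Ico (n + 1) (K + 1), (2 * (σ l t * a l t - μ l * a l t ^ 2)) := by
        rw [mul_sum, ← sum_add_distrib]
        refine sum_congr rfl fun l _ => ?_
        ring
      rw [h1, hflux]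
      have h2 : - (2 * (e K t * (W g a (K + 1) t - W g a (n + 1) t))) ≤ 4 * C * ε := by
        have h3 := hWK t htT
        have h4 := abs_le.mp (S.abs_W_le (n + 1) htT)
        have h5 := heK t htT
        have h6 := S.e_nonneg K t htT
        have h7 : -(e K t * W g a (K + 1) t) ≤ ε := by
          have h8 : -(W g a (K + 1) t) ≤ |W g a (K + 1) t| := neg_le_abs _
          have h9 := mul_le_mul_of_nonneg_left h8 h6
          linarith
        have h10 : e K t * W g a (n + 1) t ≤ ε * w g R (n + 1) :=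
          (mul_le_mul_of_nonneg_left h4.2 h6).trans
            (mul_le_mul_of_nonneg_right h5 (S.w_nonneg (n + 1)))
        have h11 := mul_nonneg hε.le (S.w_nonneg (n + 1))
        rw [hCdef]
        nlinarith
      have h3 : - (2 * ∑ l ∈ Ico (n + 1) (K + 1), κ l t * (W g a l t - W g a (n + 1) t))
          + ∑ l ∈ Ico (n + 1) (K + 1), (2 * (σ l t * a l t - μ l * a l t ^ 2)) ≤ η := by
        refine le_trans ?_ (hη K)
        rw [mul_sum, ← sum_neg_distrib, ← sum_add_distrib]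
        refine sum_le_sum fun l hl => ?_
        have hl1 : n + 1 ≤ l := (Finset.mem_Ico.mp hl).1
        have h4 := abs_le.mp (S.abs_W_le l htT)
        have h5 := abs_le.mp (S.abs_W_le (n + 1) htT)
        have h6 := S.w_mono hl1
        have h7 := S.κ_nonneg l t htT
        have h8 := S.κ_hi l t htT
        have h9 := S.w_nonneg l
        have h10 : - (2 * (κ l t * (W g a l t - W g a (n + 1) t))) ≤ 4 * κh l * w g R l := by
          have h11 : -(2 * w g R l) ≤ W g a l t - W g a (n + 1) t := by linarith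
          have h12 : κ l t * w g R l ≤ κh l * w g R l := mul_le_mul_of_nonneg_right h8 h9
          nlinarith
        have h11 : 2 * (σ l t * a l t - μ l * a l t ^ 2) ≤ 2 * R * shi l := by
          have h12 := abs_le.mp (S.a_bdd l t htT)
          have h13 : 0 ≤ σ l t := (S.slo_pos l).le.trans (S.σ_lo l t htT)
          have h14 := S.σ_hi l t htT
          have h15 : 0 ≤ μ l * a l t ^ 2 := mul_nonneg (S.μ_nonneg l) (sq_nonneg _)
          have h16 : σ l t * a l t ≤ σ l t * R := mul_le_mul_of_nonneg_left h12.2 h13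
          have h17 : σ l t * R ≤ shi l * R :=
            mul_le_mul_of_nonneg_right h14 (by linarith [S.R_ge])
          linarith
        linarith
      linarith
    have hg := gronwall_upper (f := fun t => ∑ l ∈ Ico (n + 1) (K + 1), a l t ^ 2)
      (h := η + 4 * C * ε) (B := 2 * B) (by positivity) hF hΓ hle hinc ht
      (by positivity)
    simp only [sub_zero] at hg
    have h0' : ∑ l ∈ Ico (n + 1) (K + 1), a l 0 ^ 2 = 0 := by
      refine sum_eq_zero fun l hl => ?_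
      rw [h0 l (by have := (Finset.mem_Ico.mp hl).1; omega)]
      norm_num
    rw [h0', zero_add] at hg
    have hg2 : ∑ l ∈ Ico (n + 1) (K + 1), a l t ^ 2 ≤ (η + 4 * C * ε) * Real.exp (2 * B) := by
      refine hg.trans ?_
      refine mul_le_mul_of_nonneg_right ?_ (Real.exp_pos _).le
      have : t ≤ 1 := htT.2.trans S.T_le
      have h0 : 0 ≤ η + 4 * C * ε := by positivity
      nlinarith [ht.1]
    rw [S.tail_split hnK htT]
    have hk : ∑ l ∈ Ico (n + 1) (K + 1), κ l t ≤ η :=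
      (sum_le_sum fun l _ => S.κ_hi l t htT).trans (hη' K)
    have := heK t htT
    linarith
  -- let ε → 0
  have hlim : e n t ≤ η * Real.exp (2 * B) + η := by
    refine le_of_forall_pos_le_add fun δ hδ => ?_
    have hden : 0 < 4 * C * Real.exp (2 * B) + 1 := by positivity
    have h1 := key (δ / (4 * C * Real.exp (2 * B) + 1)) (by positivity)
    have h2 : (η + 4 * C * (δ / (4 * C * Real.exp (2 * B) + 1))) * Real.exp (2 * B) + η
        + δ / (4 * C * Real.exp (2 * B) + 1) = η * Real.exp (2 * B) + η + δ := by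
      field_simp
      ring
    linarith
  have h1 : (1 : ℝ) ≤ Real.exp (2 * B) := Real.one_le_exp (by linarith)
  nlinarith

end Shell
end Pool.Agent.H402V4
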