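import Mathlib
import Pool.Agent.H402V4.Stage

/-! The cascade: the shell system with good parameters has no solution with bounded strain on
the whole time interval. -/

open Set Finset

namespace Pool.Agent.H402V4

variable {g μ slo shi κh η Q Λ r : ℕ → ℝ} {R T : ℝ} {a e σ κ : ℕ → ℝ → ℝ}

theorem cascade (S : Shell g μ slo shi κh R T a e σ κ) (Pr : Par g μ slo shi κh η Q Λ r R T)
    (h0 : r 0 ≤ a 0 0) (h1 : a 1 0 = δ g 0) (hz : ∀ n, 2 ≤ n → a n 0 = 0)
    (hW : ∃ n, ∀ t ∈ Icc 0 T, |W g a n t| + |W g a (n + 1) t| < g n * r n) : False := by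
  have hA' : ∀ n, ∃ F : ℝ → ℝ, F 0 = 0 ∧ ∀ t ∈ Icc 0 T, HasDerivWithinAt F (a n t) (Icc 0 T) t :=
    fun n => exists_primitive S.T_nonneg (S.cont n)
  choose A hA0 hA using hA'
  have hP' : ∀ n, ∃ F : ℝ → ℝ, F 0 = 0 ∧
      ∀ t ∈ Icc 0 T, HasDerivWithinAt F (max (a n t) 0) (Icc 0 T) t :=
    fun n => exists_primitive S.T_nonneg (ContinuousOn.sup (S.cont n) continuousOn_const)
  choose P hP0 hP using hP'
  have key : ∀ n, ∃ t0 ∈ Icc 0 T, t0 ≤ ∑ k ∈ range n, D g Λ r k ∧ r n ≤ a n t0 ∧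
      a (n + 1) t0 = δ g n ∧ (∀ s ∈ Icc 0 t0, a (n + 1) s ≤ δ g n) ∧
      ∑ m ∈ range (n + 1), g m * P m t0 ≤ Q n := by
    intro n
    induction n with
    | zero =>
      refine ⟨0, left_mem_Icc.mpr S.T_nonneg, by simp, h0, h1, ?_, ?_⟩
      · intro s hs
        have : s = 0 := le_antisymm hs.2 hs.1
        rw [this]; exact h1.le
      · simp only [hP0, mul_zero, sum_const_zero]
        exact Pr.Q_nonneg 0
    | succ n ih =>
      obtain ⟨t0, ht0, ht0s, hx, hy, hy', hQ⟩ := ih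
      have hD : t0 + D g Λ r n ≤ T := by
        have := Pr.c9 (n + 1)
        rw [sum_range_succ] at this
        linarith
      obtain ⟨t1, ht1, hx1, hy1, hy1', hQ1⟩ := stage S Pr hA hP0 hP hz ht0 hD hx hy hy' hQ
      refine ⟨t1, ⟨ht0.1.trans ht1.1, ht1.2.trans hD⟩, ?_, hx1, hy1, hy1', hQ1⟩
      rw [sum_range_succ]
      linarith [ht1.2]
  obtain ⟨n, hn⟩ := hW
  obtain ⟨t0, ht0, -, hx, -⟩ := key n
  have h2 := hn t0 ht0
  have h3 := le_abs_self (W g a (n + 1) t0)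
  have h5 := neg_abs_le (W g a n t0)
  rw [W_succ] at h2 h3
  have h4 : g n * r n ≤ g n * a n t0 := mul_le_mul_of_nonneg_left hx (S.g_pos n).le
  linarith

end Pool.Agent.H402V4
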