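import Mathlib
import Pool.Agent.H402V4.Fld

/-! The planar strain `H` and fields which are affine on the support of others. -/

open Set MeasureTheory
open scoped RealInnerProductSpace

namespace Pool.Agent.H402V4

/-- planar strain `diag(-1, 1, 0)` -/
noncomputable def HH : V →L[ℝ] V :=
  (EuclideanSpace.proj 1 : V →L[ℝ] ℝ).smulRight (ev 1)
    - (EuclideanSpace.proj 0 : V →L[ℝ] ℝ).smulRight (ev 0)

theorem HH_apply (x : V) : HH x = x 1 • ev 1 - x 0 • ev 0 := by
  simp [HH]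

theorem inner_ev (x : V) (i : Fin 3) : ⟪ev i, x⟫ = x i := by
  unfold ev; simp [EuclideanSpace.inner_single_left]

theorem HH_inner (x y : V) : ⟪HH x, y⟫ = x 1 * y 1 - x 0 * y 0 := by
  rw [HH_apply, inner_sub_left, inner_smul_left, inner_smul_left, inner_ev, inner_ev]
  simp

theorem HH_symm (x y : V) : ⟪HH x, y⟫ = ⟪x, HH y⟫ := by
  rw [HH_inner, real_inner_comm, HH_inner]; ring

/-- linear strain field -/
noncomputable def Ls (W : ℝ) : V → V := fun x => W • HH x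

theorem Ls_cd (W : ℝ) : ContDiff ℝ 1 (Ls W) := (W • HH).contDiff

theorem Ls_cont (W : ℝ) : Continuous (Ls W) := (Ls_cd W).continuous

theorem Ls_fderiv (W : ℝ) (x : V) : fderiv ℝ (Ls W) x = W • HH := by
  have : HasFDerivAt (Ls W) (W • HH) x := HH.hasFDerivAt.const_smul W
  exact this.fderiv

theorem Ls_div (W : ℝ) (x : V) : divg (Ls W) x = 0 := by
  unfold divg
  rw [Ls_fderiv]
  simp [Fin.sum_univ_three, HH_apply, ev]

/-- `S = s H` -/
theorem sHH_symm (s : ℝ) (x y : V) : ⟪(s • HH) x, y⟫ = ⟪x, (s • HH) y⟫ := by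
  simp [inner_smul_left, inner_smul_right, HH_symm]

theorem sHH2_symm (s : ℝ) (x y : V) : ⟪(s • HH.comp HH) x, y⟫ = ⟪x, (s • HH.comp HH) y⟫ := by
  simp [inner_smul_left, inner_smul_right, HH_symm]

/-- `φ` is affine with linear part `s H` on the support of `Y` -/
def AffOn (φ : V → V) (s : ℝ) (b : V) (Y : V → V) : Prop :=
  ∀ x ∈ tsupport Y, φ x = s • HH x + b ∧ fderiv ℝ φ x = s • HH

noncomputable def hf (u v : V → V) : ℝ := ∫ x, ⟪u x, HH (v x)⟫

theorem hf_int {u v : V → V} (hu : Continuous u) (hv : TF v) :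
    Integrable fun x => ⟪u x, HH (v x)⟫ := by
  obtain ⟨R, hR⟩ := hv.out
  have := hv.cont
  exact integrable_of_zero (by fun_prop) (R := R) fun x hx => by simp [(hR x hx).1]

theorem hf_comm (u v : V → V) : hf u v = hf v u := by
  unfold hf
  congr 1; ext x
  rw [← HH_symm, real_inner_comm]

theorem hf_add_left {u₁ u₂ v : V → V} (h₁ : Continuous u₁) (h₂ : Continuous u₂) (hv : TF v) :
    hf (u₁ + u₂) v = hf u₁ v + hf u₂ v := by
  unfold hf
  rw [← integral_add (hf_int h₁ hv) (hf_int h₂ hv)]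
  simp [inner_add_left]

theorem hf_smul_left (c : ℝ) (u v : V → V) : hf (c • u) v = c * hf u v := by
  unfold hf
  rw [← integral_const_mul]
  simp [inner_smul_left]

theorem hf_smul_right (c : ℝ) (u v : V → V) : hf u (c • v) = c * hf u v := by
  rw [hf_comm, hf_smul_left, hf_comm]

theorem not_mem {Y : V → V} {x : V} (hx : x ∉ tsupport Y) : Y x = 0 ∧ fderiv ℝ Y x = 0 :=
  ⟨image_eq_zero_of_notMem_tsupport hx, fderiv_of_notMem_tsupport _ hx⟩

section Aff

variable {φ Y : V → V} {s : ℝ} {b : V}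

theorem aff_lin_left (h : AffOn φ s b Y) (hY : TF Y) (W : ℝ) : tri (Ls W) φ Y = 0 := by
  have h1 := int_symm (sHH2_symm (W * s)) 0 hY
  rw [← h1]
  unfold tri
  congr 1; ext x
  by_cases hx : x ∈ tsupport Y
  · rw [(h x hx).2]
    simp only [Ls, ContinuousLinearMap.coe_smul', Pi.smul_apply, inner_smul_left,
      inner_smul_right, add_zero, ContinuousLinearMap.coe_comp', Function.comp_apply]
    rw [HH_symm (HH x)]
    simp
    ring
  · simp [(not_mem hx).1]

theorem aff_lin_right (h : AffOn φ s b Y) (hY : TF Y) (W : ℝ) : tri Y φ (Ls W) = 0 := by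
  have h1 := int_symm (sHH2_symm (W * s)) 0 hY
  rw [← h1]
  unfold tri
  congr 1; ext x
  by_cases hx : x ∈ tsupport Y
  · rw [(h x hx).2]
    simp only [Ls, ContinuousLinearMap.coe_smul', Pi.smul_apply, inner_smul_left,
      inner_smul_right, add_zero, ContinuousLinearMap.coe_comp', Function.comp_apply, map_smul]
    rw [real_inner_comm]
    simp
    ring
  · simp [(not_mem hx).1]

theorem aff_self (h : AffOn φ s b Y) (hY : TF Y) : tri Y φ φ = 0 := by
  have h1 := int_symm (sHH2_symm (s * s)) (s • HH b) hY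
  rw [← h1]
  unfold tri
  congr 1; ext x
  by_cases hx : x ∈ tsupport Y
  · rw [(h x hx).2, (h x hx).1, real_inner_comm]
    congr 1
    simp [smul_smul]
  · simp [(not_mem hx).1]

theorem aff_ip (h : AffOn φ s b Y) (hY : TF Y) : ip φ Y = 0 := by
  have h1 := int_symm (sHH_symm s) b hY
  rw [← h1]
  unfold ip
  congr 1; ext x
  by_cases hx : x ∈ tsupport Y
  · rw [(h x hx).1]
    simp
  · simp [(not_mem hx).1]

theorem aff_hf (h : AffOn φ s b Y) (hY : TF Y) : hf φ Y = 0 := by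
  have h1 := int_symm (sHH2_symm s) (HH b) hY
  rw [← h1]
  unfold hf
  congr 1; ext x
  by_cases hx : x ∈ tsupport Y
  · rw [(h x hx).1, ← HH_symm]
    simp
  · simp [(not_mem hx).1]

theorem aff_dir (h : AffOn φ s b Y) (hY : TF Y) : dir φ Y = 0 := by
  have h1 := int_dir_const (S := s • HH) hY
  rw [← h1]
  unfold dir
  congr 1; ext x
  by_cases hx : x ∈ tsupport Y
  · rw [(h x hx).2]
  · simp [(not_mem hx).2]

theorem aff_tri (h : AffOn φ s b Y) (u : V → V) : tri u φ Y = s * hf u Y := by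
  unfold tri hf
  rw [← integral_const_mul]
  congr 1; ext x
  by_cases hx : x ∈ tsupport Y
  · rw [(h x hx).2]
    simp [inner_smul_right]
  · simp [(not_mem hx).1]

end Aff

theorem hf_disj {u v : V → V} (h : ∀ x, u x = 0 ∨ v x = 0) : hf u v = 0 := by
  unfold hf
  have : ∀ x, ⟪u x, HH (v x)⟫ = 0 := fun x => by rcases h x with h | h <;> simp [h]
  simp [this]

theorem ip_disj {u v : V → V} (h : ∀ x, u x = 0 ∨ v x = 0) : ip u v = 0 := by
  unfold ip
  have : ∀ x, ⟪u x, v x⟫ = 0 := fun x => by rcases h x with h | h <;> simp [h]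
  simp [this]

theorem lin_lin {φ : V → V} (hφ : TF φ) (W : ℝ) : tri (Ls W) φ (Ls W) = 0 := by
  have h := ibp (Ls_cd W) hφ (Ls_cd W) (Ls_div W)
  have h1 := int_symm (sHH2_symm (W * W)) 0 hφ
  have h2 : ∫ x, ⟪fderiv ℝ (Ls W) x (Ls W x), φ x⟫ = 0 := by
    rw [← h1]
    congr 1; ext x
    rw [Ls_fderiv]
    congr 1
    simp [Ls, smul_smul]
  linarith

theorem lin_phi {φ : V → V} (hφ : TF φ) (W : ℝ) : tri (Ls W) φ φ = - (W * hf φ φ) := by
  have h := ibp (Ls_cd W) hφ hφ.cd hφ.dv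
  have h2 : ∫ x, ⟪fderiv ℝ (Ls W) x (φ x), φ x⟫ = W * hf φ φ := by
    unfold hf
    rw [← integral_const_mul]
    congr 1; ext x
    rw [Ls_fderiv]
    simp [inner_smul_left, HH_symm]
  linarith

/-- the flux into the mode `φ` -/
theorem tri_main {φ Y₁ Y₂ v : V → V} {a W s₁ s₂ : ℝ} {b₁ b₂ : V} (hφ : TF φ) (h1 : TF Y₁)
    (h2 : TF Y₂) (A1 : AffOn φ s₁ b₁ Y₁) (A2 : AffOn φ s₂ b₂ Y₂)
    (hd : ∀ x, Y₁ x = 0 ∨ Y₂ x = 0)
    (hv : ∀ x, fderiv ℝ φ x ≠ 0 → v x = Ls W x + a • φ x + Y₁ x + Y₂ x) :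
    tri v φ v = - (W * a * hf φ φ) + s₁ * hf Y₁ Y₁ + s₂ * hf Y₂ Y₂ := by
  set z : V → V := Ls W + a • φ + Y₁ + Y₂ with hz
  have e1 : tri v φ v = tri z φ z := by
    unfold tri
    congr 1; ext x
    by_cases hx : fderiv ℝ φ x = 0
    · simp [hx]
    · rw [hv x hx]; simp [hz]
  have c0 := Ls_cont W
  have cφ := hφ.cont
  have c1 := h1.cont
  have c2 := h2.cont
  have cz : Continuous z := by rw [hz]; fun_prop
  have zd : ContDiff ℝ 1 z := (((Ls_cd W).add (hφ.cd.const_smul a)).add h1.cd).add h2.cd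
  have zdiv : ∀ x, divg z x = 0 := by
    intro x
    have d0 := (Ls_cd W).differentiable (by norm_num)
    have dφ := (hφ.smul a).diff
    rw [hz, divg_add ((d0.add dφ).add h1.diff) h2.diff, divg_add (d0.add dφ) h1.diff,
      divg_add d0 dφ, Ls_div, (hφ.smul a).dv, h1.dv, h2.dv]
    ring
  have e2 : tri φ φ z = 0 := tri_self hφ zd zdiv
  have e3 : tri (Ls W) φ z = - (W * a * hf φ φ) := by
    rw [hz, tri_add_right c0 hφ (by fun_prop) c2, tri_add_right c0 hφ (by fun_prop) c1,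
      tri_add_right c0 hφ (by fun_prop) (by fun_prop), lin_lin hφ, tri_smul_right,
      lin_phi hφ, aff_lin_left A1 h1, aff_lin_left A2 h2]
    ring
  have e4 : tri Y₁ φ z = s₁ * hf Y₁ Y₁ := by
    rw [hz, tri_add_right c1 hφ (by fun_prop) c2, tri_add_right c1 hφ (by fun_prop) c1,
      tri_add_right c1 hφ (by fun_prop) (by fun_prop), tri_smul_right, aff_lin_right A1 h1,
      aff_self A1 h1, aff_tri A1, aff_tri A2, hf_disj hd]
    ring
  have e5 : tri Y₂ φ z = s₂ * hf Y₂ Y₂ := by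
    rw [hz, tri_add_right c2 hφ (by fun_prop) c2, tri_add_right c2 hφ (by fun_prop) c1,
      tri_add_right c2 hφ (by fun_prop) (by fun_prop), tri_smul_right, aff_lin_right A2 h2,
      aff_self A2 h2, aff_tri A1, aff_tri A2, hf_disj (fun x => (hd x).symm)]
    ring
  rw [e1]
  have e6 : tri z φ z = tri (Ls W + a • φ + Y₁ + Y₂) φ z := by rw [← hz]
  rw [e6, tri_add_left (by fun_prop) c2 hφ cz, tri_add_left (by fun_prop) c1 hφ cz,
    tri_add_left c0 (by fun_prop) hφ cz, tri_smul_left, e2, e3, e4, e5]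
  ring

theorem integral_add4 {f1 f2 f3 f4 : V → ℝ} (i1 : Integrable f1) (i2 : Integrable f2)
    (i3 : Integrable f3) (i4 : Integrable f4) :
    ∫ x, (f1 x + f2 x + f3 x + f4 x)
      = (∫ x, f1 x) + (∫ x, f2 x) + (∫ x, f3 x) + (∫ x, f4 x) := by
  have h1 : ∫ x, (f1 x + f2 x + f3 x + f4 x) = (∫ x, (f1 x + f2 x + f3 x)) + ∫ x, f4 x :=
    integral_add ((i1.add i2).add i3) i4
  have h2 : ∫ x, (f1 x + f2 x + f3 x) = (∫ x, (f1 x + f2 x)) + ∫ x, f3 x :=
    integral_add (i1.add i2) i3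
  rw [h1, h2, integral_add i1 i2]

/-- the dissipation of the mode `φ` -/
theorem dir_main {φ Y₁ Y₂ v : V → V} {a W s₁ s₂ : ℝ} {b₁ b₂ : V} (hφ : TF φ) (h1 : TF Y₁)
    (h2 : TF Y₂) (A1 : AffOn φ s₁ b₁ Y₁) (A2 : AffOn φ s₂ b₂ Y₂)
    (hv : ∀ x, fderiv ℝ φ x ≠ 0 → fderiv ℝ v x = W • HH + a • fderiv ℝ φ x + fderiv ℝ Y₁ x
      + fderiv ℝ Y₂ x) :
    dir v φ = a * dir φ φ := by
  have e0 : dir v φ = ∫ x, ((∑ i, ⟪(W • HH) (ev i), fderiv ℝ φ x (ev i)⟫)
      + a * (∑ i, ⟪fderiv ℝ φ x (ev i), fderiv ℝ φ x (ev i)⟫)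
      + (∑ i, ⟪fderiv ℝ φ x (ev i), fderiv ℝ Y₁ x (ev i)⟫)
      + (∑ i, ⟪fderiv ℝ φ x (ev i), fderiv ℝ Y₂ x (ev i)⟫)) := by
    unfold dir
    congr 1; ext x
    by_cases hx : fderiv ℝ φ x = 0
    · simp [hx]
    · rw [hv x hx, Finset.mul_sum, ← Finset.sum_add_distrib, ← Finset.sum_add_distrib,
        ← Finset.sum_add_distrib]
      refine Finset.sum_congr rfl fun i _ => ?_
      simp only [add_apply, ContinuousLinearMap.coe_smul', Pi.smul_apply,
        inner_add_left, inner_smul_left]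
      rw [real_inner_comm (fderiv ℝ φ x (ev i)) (fderiv ℝ Y₁ x (ev i)),
        real_inner_comm (fderiv ℝ φ x (ev i)) (fderiv ℝ Y₂ x (ev i))]
      simp
  have i1 : Integrable fun x => ∑ i, ⟪(W • HH) (ev i), fderiv ℝ φ x (ev i)⟫ := by
    obtain ⟨R, hR⟩ := hφ.out
    have := hφ.contd
    exact integrable_of_zero (by fun_prop) (R := R) fun x hx => by simp [(hR x hx).2]
  have i2 := dir_int hφ.contd hφ
  have i3 := dir_int hφ.contd h1
  have i4 := dir_int hφ.contd h2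
  rw [e0, integral_add4 i1 (i2.const_mul a) i3 i4, int_dir_const hφ, integral_const_mul]
  have e3 := aff_dir A1 h1
  have e4 := aff_dir A2 h2
  unfold dir at e3 e4 ⊢
  rw [e3, e4]
  ring

end Pool.Agent.H402V4
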