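import Mathlib
import Pool.Agent.H402V4.Strain

/-! Scaled copies of fields. -/

open Set MeasureTheory Filter Topology
open scoped RealInnerProductSpace ContDiff

namespace Pool.Agent.H402V4

/-- the energy-preserving rescaling at frequency `M^2` -/
noncomputable def sc (M : ℝ) (φ : V → V) : V → V := fun x => M ^ 3 • φ (M ^ 2 • x)

theorem sc_cd {n : WithTop ℕ∞} {M : ℝ} {φ : V → V} (h : ContDiff ℝ n φ) :
    ContDiff ℝ n (sc M φ) := by
  unfold sc
  have h1 : ContDiff ℝ n (fun x : V => M ^ 2 • x) := contDiff_id.const_smul (M ^ 2)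
  exact (h.comp h1).const_smul (M ^ 3)

theorem sc_fderiv {M : ℝ} {φ : V → V} (h : Differentiable ℝ φ) (x : V) :
    fderiv ℝ (sc M φ) x = M ^ 5 • fderiv ℝ φ (M ^ 2 • x) := by
  have h1 : HasFDerivAt (fun x : V => M ^ 2 • x) (M ^ 2 • ContinuousLinearMap.id ℝ V) x :=
    (hasFDerivAt_id x).const_smul (M ^ 2)
  have h2 : HasFDerivAt (sc M φ)
      (M ^ 3 • (fderiv ℝ φ (M ^ 2 • x)).comp (M ^ 2 • ContinuousLinearMap.id ℝ V)) x :=
    ((h (M ^ 2 • x)).hasFDerivAt.comp x h1).const_smul (M ^ 3)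
  rw [h2.fderiv]
  ext y
  simp
  ring

theorem sc_cs {M : ℝ} (hM : 0 < M) {φ : V → V} (h : HasCompactSupport φ) :
    HasCompactSupport (sc M φ) := by
  obtain ⟨R, hR⟩ := out_of_cs h
  refine HasCompactSupport.intro (isCompact_closedBall (0 : V) (R / M ^ 2)) fun x hx => ?_
  have h1 : R / M ^ 2 < ‖x‖ := by simpa using hx
  have h2 : R < ‖M ^ 2 • x‖ := by
    rw [norm_smul, Real.norm_eq_abs, abs_of_pos (by positivity)]
    rw [div_lt_iff₀ (by positivity)] at h1
    linarith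
  simp [sc, (hR _ h2).1]

theorem sc_div {M : ℝ} {φ : V → V} (h : Differentiable ℝ φ) (x : V) :
    divg (sc M φ) x = M ^ 5 * divg φ (M ^ 2 • x) := by
  unfold divg
  rw [sc_fderiv h, Finset.mul_sum]
  simp

theorem sc_TF {M : ℝ} (hM : 0 < M) {φ : V → V} (h : TF φ) : TF (sc M φ) where
  cd := sc_cd h.cd
  cs := sc_cs hM h.cs
  dv x := by rw [sc_div h.diff, h.dv, mul_zero]

theorem int_scale {M : ℝ} (hM : 0 < M) (f : V → ℝ) :
    ∫ x, M ^ 6 * f (M ^ 2 • x) = ∫ x, f x := by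
  rw [integral_const_mul, Measure.integral_comp_smul]
  simp only [finrank_euclideanSpace, Fintype.card_fin, smul_eq_mul]
  rw [abs_of_pos (by positivity), ← mul_assoc, ← pow_mul]
  have : M ^ 6 ≠ 0 := by positivity
  norm_num
  field_simp

theorem sc_ip {M : ℝ} (hM : 0 < M) (u v : V → V) : ip (sc M u) (sc M v) = ip u v := by
  unfold ip
  rw [← int_scale hM (fun x => ⟪u x, v x⟫)]
  congr 1; ext x
  simp only [sc, inner_smul_left, inner_smul_right]
  simp
  ring

theorem sc_hf {M : ℝ} (hM : 0 < M) (u v : V → V) : hf (sc M u) (sc M v) = hf u v := by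
  unfold hf
  rw [← int_scale hM (fun x => ⟪u x, HH (v x)⟫)]
  congr 1; ext x
  simp only [sc, map_smul, inner_smul_left, inner_smul_right]
  simp
  ring

theorem sc_dir {M : ℝ} (hM : 0 < M) {u v : V → V} (hu : Differentiable ℝ u)
    (hv : Differentiable ℝ v) : dir (sc M u) (sc M v) = M ^ 4 * dir u v := by
  unfold dir
  rw [← int_scale hM (fun x => ∑ i, ⟪fderiv ℝ u x (ev i), fderiv ℝ v x (ev i)⟫),
    ← integral_const_mul]
  congr 1; ext x
  simp only [sc_fderiv hu, sc_fderiv hv, Finset.mul_sum]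
  refine Finset.sum_congr rfl fun i _ => ?_
  simp only [ContinuousLinearMap.coe_smul', Pi.smul_apply, inner_smul_left, inner_smul_right]
  simp
  ring

/-- bounds for all derivatives of the rescaled field -/
theorem sc_iter {M : ℝ} (hM : 0 ≤ M) {φ : V → V} (h : ContDiff ℝ ∞ φ) {k : ℕ} {C : ℝ}
    (hC : ∀ x, ‖iteratedFDeriv ℝ k φ x‖ ≤ C) (x : V) :
    ‖iteratedFDeriv ℝ k (sc M φ) x‖ ≤ M ^ (3 + 2 * k) * C := by
  have h1 : sc M φ = M ^ 3 • (φ ∘ (M ^ 2 • ContinuousLinearMap.id ℝ V)) := by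
    ext y; simp [sc]
  have hc : ContDiff ℝ ∞ (φ ∘ (M ^ 2 • ContinuousLinearMap.id ℝ V)) :=
    h.comp (ContinuousLinearMap.contDiff _)
  rw [h1, iteratedFDeriv_const_smul_apply ((hc.of_le (by exact_mod_cast le_top)).contDiffAt),
    ContinuousLinearMap.iteratedFDeriv_comp_right _ h _ (by exact_mod_cast le_top), norm_smul]
  have hC0 : 0 ≤ C := (norm_nonneg _).trans (hC 0)
  have h2 : ‖M ^ 2 • ContinuousLinearMap.id ℝ V‖ ≤ M ^ 2 := by
    rw [norm_smul, Real.norm_eq_abs, abs_of_nonneg (by positivity)]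
    refine mul_le_of_le_one_right (by positivity) ContinuousLinearMap.norm_id_le
  have h3 := (iteratedFDeriv ℝ k φ ((M ^ 2 • ContinuousLinearMap.id ℝ V) x)
    ).norm_compContinuousLinearMap_le (fun _ => M ^ 2 • ContinuousLinearMap.id ℝ V)
  rw [Real.norm_eq_abs, abs_of_nonneg (by positivity)]
  calc M ^ 3 * _ ≤ M ^ 3 * (‖iteratedFDeriv ℝ k φ ((M ^ 2 • ContinuousLinearMap.id ℝ V) x)‖ *
        ∏ _i : Fin k, ‖M ^ 2 • ContinuousLinearMap.id ℝ V‖) :=
        mul_le_mul_of_nonneg_left h3 (by positivity)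
    _ ≤ M ^ 3 * (C * (M ^ 2) ^ k) := by
        refine mul_le_mul_of_nonneg_left ?_ (by positivity)
        refine mul_le_mul (hC _) ?_ (by positivity) hC0
        rw [Finset.prod_const, Finset.card_univ, Fintype.card_fin]
        exact pow_le_pow_left₀ (norm_nonneg _) h2 k
    _ = _ := by rw [pow_add, pow_mul]; ring

theorem cs_bound {E : Type*} [NormedAddCommGroup E] {f : V → E} (hf : Continuous f)
    {R : ℝ} (h : ∀ x, R < ‖x‖ → f x = 0) : ∃ C, 0 ≤ C ∧ ∀ x, ‖f x‖ ≤ C := by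
  have hc : HasCompactSupport f := by
    refine HasCompactSupport.intro (isCompact_closedBall (0 : V) R) fun x hx => h x ?_
    simpa using hx
  obtain ⟨C, hC⟩ := hf.bounded_above_of_compact_support hc
  exact ⟨C, (norm_nonneg _).trans (hC 0), hC⟩

/-- volume of a ball -/
noncomputable def vr (r : ℝ) : ℝ := (volume (Metric.closedBall (0 : V) r)).toReal

theorem vr_nonneg (r : ℝ) : 0 ≤ vr r := ENNReal.toReal_nonneg

theorem vr_eq {r : ℝ} (hr : 0 ≤ r) : vr r = r ^ 3 * vr 1 := by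
  unfold vr
  rw [Measure.addHaar_closedBall _ _ hr, Measure.addHaar_closedBall _ _ zero_le_one]
  simp [ENNReal.toReal_mul, ENNReal.toReal_ofReal (pow_nonneg hr 3)]

theorem int_le_vr {F : V → ℝ} {K r : ℝ} (h : ∀ x, ‖x‖ ≤ r → |F x| ≤ K)
    (h0 : ∀ x, r < ‖x‖ → F x = 0) : |∫ x, F x| ≤ K * vr r := by
  have h1 : ∫ x, F x = ∫ x in Metric.closedBall (0 : V) r, F x := by
    rw [setIntegral_eq_integral_of_forall_compl_eq_zero]
    intro x hx
    exact h0 x (by simpa using hx)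
  rw [h1, ← Real.norm_eq_abs]
  refine norm_setIntegral_le_of_norm_le_const ?_ ?_
  · exact (isCompact_closedBall (0 : V) r).measure_lt_top
  · intro x hx
    exact h x (by simpa using hx)

end Pool.Agent.H402V4
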