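import Mathlib
import Pool.Agent.H402V4.Max

/-! The maximal solution and its blow-up. -/

open Set MeasureTheory Filter Topology
open scoped RealInnerProductSpace ContDiff

namespace Pool.Agent.H402V4

variable {φ ρ ψ : V → V} {x₁ : V} {ν T lam R : ℝ}

theorem Good.maximal (G : Good φ ρ ψ x₁ ν T lam R) :
    ∃ (Ts : ℝ) (u : ℝ → V → V), 0 < Ts ∧ Ts ≤ T ∧
      (∀ T', 0 ≤ T' → T' < Ts →
        GSol ν (Fam φ ψ ρ (MM lam) (EE lam)) (u00 φ ψ ρ lam (dd φ lam)) T' u) ∧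
      (∀ t, 0 ≤ t → t < Ts → ContDiff ℝ ∞ (u t)) ∧
      (∀ n₀, ∃ t, 0 ≤ t ∧ t < Ts ∧ ∃ n ≥ n₀, muu (ν * dir φ φ / ip φ φ) lam n <
        W (gg (-hf φ φ / ip φ φ) lam) (fun n t => af φ (MM lam) (u t) n) n t) ∧
      (∀ T' v, 0 ≤ T' →
        GSol ν (Fam φ ψ ρ (MM lam) (EE lam)) (u00 φ ψ ρ lam (dd φ lam)) T' v →
        T' < Ts ∧ ∀ t ∈ Icc 0 T', v t = u t) := by
  set Sol : ℝ → (ℝ → V → V) → Prop :=
    fun T' u => GSol ν (Fam φ ψ ρ (MM lam) (EE lam)) (u00 φ ψ ρ lam (dd φ lam)) T' u with hSol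
  set St : Set ℝ := {t | 0 ≤ t ∧ ∃ u, Sol t u} with hSt
  have h0St : (0 : ℝ) ∈ St := ⟨le_rfl, _, G.zero_sol⟩
  have hlt : ∀ t ∈ St, t < T := by
    intro t ht
    obtain ⟨_, u, hu⟩ := ht
    by_contra hcon
    exact G.no_sol u (GSol.restrict hu (not_lt.mp hcon))
  have hbdd : BddAbove St := ⟨T, fun t ht => (hlt t ht).le⟩
  have down : ∀ t ∈ St, ∀ s, 0 ≤ s → s ≤ t → s ∈ St := by
    intro t ht s hs hst
    obtain ⟨_, u, hu⟩ := ht
    exact ⟨hs, u, GSol.restrict hu hst⟩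
  set Ts := sSup St with hTs
  have hle : ∀ t ∈ St, t ≤ Ts := fun t ht => le_csSup hbdd ht
  have hTs0' : 0 ≤ Ts := hle 0 h0St
  have notmem : Ts ∉ St := by
    intro h
    obtain ⟨_, u, hu⟩ := h
    obtain ⟨C, hC⟩ := hu.bdd
    obtain ⟨n₀, hn₀⟩ := G.dom_vel (le_max_right C 0)
    obtain ⟨τ, hτ, hext⟩ := G.extend n₀
    obtain ⟨v, hv⟩ := hext Ts u hTs0' (hlt Ts ⟨hTs0', u, hu⟩).le hu
      (hn₀ Ts u hu.mem (fun t ht x => (hC t ht x).trans (le_max_left _ _)))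
    have := hle (Ts + τ) ⟨by linarith, v, hv⟩
    linarith
  have hTs0 : 0 < Ts := lt_of_le_of_ne hTs0' fun h => notmem (h ▸ h0St)
  have hmem : ∀ t, 0 ≤ t → t < Ts → t ∈ St := by
    intro t ht htT
    obtain ⟨s, hs, hts⟩ := exists_lt_of_lt_csSup ⟨0, h0St⟩ htT
    exact down s hs t ht hts.le
  have hex : ∀ t, ∃ u, 0 ≤ t → t < Ts → Sol t u := by
    intro t
    by_cases h : 0 ≤ t ∧ t < Ts
    · obtain ⟨_, u, hu⟩ := hmem t h.1 h.2
      exact ⟨u, fun _ _ => hu⟩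
    · exact ⟨0, fun h1 h2 => absurd ⟨h1, h2⟩ h⟩
  choose U hU using hex
  have hTle : ∀ t, 0 ≤ t → t < Ts → t ≤ T := fun t h1 h2 => (hlt t (hmem t h1 h2)).le
  have hagree : ∀ T', 0 ≤ T' → T' < Ts → ∀ v, Sol T' v → ∀ t ∈ Icc 0 T', v t = U t t := by
    intro T' h1 h2 v hv t ht
    have htT : t < Ts := lt_of_le_of_lt ht.2 h2
    exact G.unique ht.1 (hTle t ht.1 htT) (GSol.restrict hv ht.2) (hU t ht.1 htT) ⟨ht.1, le_rfl⟩
  have hsol : ∀ T', 0 ≤ T' → T' < Ts → Sol T' (fun t => U t t) := by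
    intro T' h1 h2
    refine GSol.congr (hU T' h1 h2) h1 fun t ht => ?_
    exact (hagree T' h1 h2 (U T') (hU T' h1 h2) t ht).symm
  refine ⟨Ts, fun t => U t t, hTs0, csSup_le ⟨0, h0St⟩ fun t ht => (hlt t ht).le, hsol, fun t ht htT => ?_, fun C => ?_, fun T' v hT' hv => ?_⟩
  · have hs := hsol t ht htT
    obtain ⟨C, hC⟩ := hs.bdd
    obtain ⟨A, -, hA⟩ := G.decay (le_max_right C 0)
    exact G.smooth (hs.mem t ⟨ht, le_rfl⟩) (hA t _ ht (hTle t ht htT) hs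
      (fun t ht x => (hC t ht x).trans (le_max_left _ _)) t ⟨ht, le_rfl⟩)
  · by_contra hcon
    push Not at hcon
    obtain ⟨τ, hτ, hext⟩ := G.extend C
    set T' := max 0 (Ts - τ / 2) with hT'
    have h1 : 0 ≤ T' := le_max_left _ _
    have h2 : T' < Ts := max_lt hTs0 (by linarith)
    obtain ⟨v, hv⟩ := hext T' _ h1 (hTle T' h1 h2) (hsol T' h1 h2)
      (fun t ht n hn => hcon t ht.1 (lt_of_le_of_lt ht.2 h2) n hn)
    have h3 := hle (T' + τ) ⟨by linarith, v, hv⟩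
    have h4 : Ts - τ / 2 ≤ T' := le_max_right _ _
    linarith
  · have h1 : T' ∈ St := ⟨hT', v, hv⟩
    have h2 : T' < Ts := lt_of_le_of_ne (hle T' h1) fun h => notmem (h ▸ h1)
    exact ⟨h2, hagree T' hT' h2 v hv⟩

end Pool.Agent.H402V4
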